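import Pool.Agent.Helper85.HD.Dist
import Pool.Agent.Helper95.BWD.CorDef

/-!
# HittingDichotomy (MP_54d188_lc): category, measure, splitting, and the distributivity number
-/

set_option autoImplicit false

open Cardinal Set MeasureTheory Topology

namespace Pool.Agent.Helper85.HD

open Pool.Agent.Helper95.BWD

theorem cofNum_nat : cofNum ℕ ≤ 1 := cofNum_small ℕ (by
  rw [mk_nat]
  exact aleph0_lt_aleph_one.le)

theorem max_nat {F : Set (Om → ℕ)} (hF : EverywhereDominating F) : max #F (cofNum ℕ) ≤ #F := by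
  refine max_le le_rfl (cofNum_nat.trans ?_)
  exact one_lt_aleph0.le.trans
    (aleph0_lt_aleph_one.le.trans (aleph_one_lt F (mod_of_everywhere hF)).le)

/-- the dichotomy for relations -/
theorem relDichotomy (F : Set (Om → ℕ)) (hF : EverywhereDominating F) (K Y : Type)
    [TopologicalSpace Y] [HereditarilyLindelofSpace Y] {X : Type*} (R : X → Y → Prop)
    (hR : ∀ x, SuslinOver K {y | R x y}) :
    (∃ t : Om → X, ¬ ∃ y, ∀ d, R (t d) y) ∨
      ∃ H : Set Y, #H ≤ max #F (cofNum K) ∧ ∀ x, ∃ y ∈ H, R x y := by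
  rcases dichotomy F hF K Y (Set.range fun x => {y | R x y}) (by
    rintro _ ⟨x, rfl⟩
    exact hR x) with ⟨t, ht, h⟩ | ⟨H, hH, h⟩
  · choose s hs using ht
    refine Or.inl ⟨s, ?_⟩
    rintro ⟨y, hy⟩
    have : y ∈ ⋂ d, t d := Set.mem_iInter.2 fun d => by
      rw [← hs d]
      exact hy d
    rw [h] at this
    exact this
  · refine Or.inr ⟨H, hH, fun x => ?_⟩
    obtain ⟨y, hy, hyH⟩ := h _ ⟨x, rfl⟩
    exact ⟨y, hyH, hy⟩

theorem suslin_of_measurable {A : Set ℝ} (hA : MeasurableSet A) : SuslinOver ℕ A := by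
  obtain ⟨R, hR, h⟩ := analytic_suslin A hA.analyticSet
  exact ⟨R, hR, h⟩

theorem catDichotomy (F : Set (Om → ℕ)) (hF : EverywhereDominating F) :
    (∃ M : Om → Set ℝ, (∀ d, IsMeagre (M d)) ∧ ⋃ d, M d = Set.univ) ∨
      ∃ H : Set ℝ, #H ≤ #F ∧ ¬ IsMeagre H := by
  rcases dichotomy F hF ℕ ℝ {A | IsGδ A ∧ Dense A} (fun A hA =>
    suslin_of_measurable hA.1.measurableSet) with ⟨t, ht, h⟩ | ⟨H, hH, h⟩
  · refine Or.inl ⟨fun d => (t d)ᶜ, fun d => ?_, ?_⟩
    · show (t d)ᶜᶜ ∈ residual ℝ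
      rw [compl_compl]
      exact residual_of_dense_Gδ (ht d).1 (ht d).2
    · rw [← Set.compl_iInter, h, Set.compl_empty]
  · refine Or.inr ⟨H, hH.trans (max_nat hF), fun hM => ?_⟩
    obtain ⟨A, hA, hG, hD⟩ := mem_residual.1 hM
    obtain ⟨y, hy, hyH⟩ := h A ⟨hG, hD⟩
    exact hA hy hyH

theorem nullDichotomy (F : Set (Om → ℕ)) (hF : EverywhereDominating F) :
    (∃ M : Om → Set ℝ, (∀ d, volume (M d) = 0) ∧ ⋃ d, M d = Set.univ) ∨
      ∃ H : Set ℝ, #H ≤ #F ∧ volume H ≠ 0 := by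
  rcases dichotomy F hF ℕ ℝ {A | MeasurableSet A ∧ volume Aᶜ = 0} (fun A hA =>
    suslin_of_measurable hA.1) with ⟨t, ht, h⟩ | ⟨H, hH, h⟩
  · refine Or.inl ⟨fun d => (t d)ᶜ, fun d => (ht d).2, ?_⟩
    rw [← Set.compl_iInter, h, Set.compl_empty]
  · refine Or.inr ⟨H, hH.trans (max_nat hF), fun hM => ?_⟩
    obtain ⟨B, hB, hBm, hB0⟩ := exists_measurable_superset_of_null hM
    obtain ⟨y, hy, hyH⟩ := h Bᶜ ⟨hBm.compl, by rw [compl_compl]; exact hB0⟩
    exact hy (hB hyH)

/-! ### infinite sets of natural numbers -/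

/-- infinite subsets of `ω` -/
def Inf : Type := {x : ℕ → Bool // {n | x n = true}.Infinite}

instance : TopologicalSpace Inf := inferInstanceAs
  (TopologicalSpace {x : ℕ → Bool // {n | x n = true}.Infinite})

instance : SecondCountableTopology Inf := inferInstanceAs
  (SecondCountableTopology ({x : ℕ → Bool | {n | x n = true}.Infinite} : Set (ℕ → Bool)))

/-- `y ≤ x`: almost inclusion -/
instance : Preorder Inf where
  le y x := {n | y.1 n = true ∧ x.1 n = false}.Finite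
  le_refl x := by
    have : {n | x.1 n = true ∧ x.1 n = false} = ∅ := by
      ext n
      cases h : x.1 n <;> simp
    rw [this]
    exact Set.finite_empty
  le_trans x y z h1 h2 := by
    refine (h1.union h2).subset ?_
    rintro n ⟨hx, hz⟩
    cases hy : y.1 n
    · exact Or.inl ⟨hx, hy⟩
    · exact Or.inr ⟨hy, hz⟩

theorem inf_le {y x : Inf} : y ≤ x ↔ {n | y.1 n = true ∧ x.1 n = false}.Finite := Iff.rfl

theorem finite_iff_bound (A : Set ℕ) : A.Finite ↔ ∃ m : ℕ, ∀ k, m ≤ k → k ∉ A := by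
  constructor
  · intro h
    obtain ⟨m, hm⟩ := h.bddAbove
    exact ⟨m + 1, fun k hk hkA => absurd (hm hkA) (by omega)⟩
  · rintro ⟨m, hm⟩
    refine (Set.finite_Iio m).subset fun k hk => ?_
    by_contra hlt
    exact hm k (not_lt.1 hlt) hk

theorem continuous_val (k : ℕ) : Continuous fun y : Inf => y.1 k :=
  (continuous_apply k).comp continuous_subtype_val

theorem closed_tail (Q : ℕ → Bool → Prop) :
    IsClosed {p : (ℕ → ℕ) × Inf | ∀ k, p.1 0 ≤ k → Q k (p.2.1 k)} := by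
  have : {p : (ℕ → ℕ) × Inf | ∀ k, p.1 0 ≤ k → Q k (p.2.1 k)} =
      ⋂ k, {p : (ℕ → ℕ) × Inf | p.1 0 ≤ k → Q k (p.2.1 k)} := by
    ext p
    simp
  rw [this]
  refine isClosed_iInter fun k => ?_
  have hc : Continuous fun p : (ℕ → ℕ) × Inf => (p.1 0, p.2.1 k) :=
    ((continuous_apply 0).comp continuous_fst).prodMk ((continuous_val k).comp continuous_snd)
  exact (isClosed_discrete {q : ℕ × Bool | q.1 ≤ k → Q k q.2}).preimage hc

theorem suslin_tail (Q : ℕ → Bool → Prop) :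
    SuslinOver ℕ {y : Inf | ∃ m, ∀ k, m ≤ k → Q k (y.1 k)} := by
  have h := suslin_nat {p : (ℕ → ℕ) × Inf | ∀ k, p.1 0 ≤ k → Q k (p.2.1 k)} (closed_tail Q)
  have he : {y : Inf | ∃ m, ∀ k, m ≤ k → Q k (y.1 k)} =
      {z | ∃ w : ℕ → ℕ, (w, z) ∈ {p : (ℕ → ℕ) × Inf | ∀ k, p.1 0 ≤ k → Q k (p.2.1 k)}} := by
    ext y
    constructor
    · rintro ⟨m, hm⟩
      exact ⟨fun _ => m, hm⟩
    · rintro ⟨w, hw⟩
      exact ⟨w 0, hw⟩
  rw [he]
  exact h

theorem suslin_Iic (x : Inf) : SuslinOver ℕ (Set.Iic x) := by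
  have h := suslin_tail fun k b => ¬ (b = true ∧ x.1 k = false)
  have he : Set.Iic x = {y : Inf | ∃ m, ∀ k, m ≤ k → ¬ (y.1 k = true ∧ x.1 k = false)} := by
    ext y
    exact finite_iff_bound _
  rw [he]
  exact h

/-- an almost disjoint family below `x`, indexed by the reals -/
theorem exists_ad (x : Inf) : ∃ a : (ℕ → Bool) → Inf, (∀ c, a c ≤ x) ∧
    ∀ c c', c ≠ c' → {n | (a c).1 n = true ∧ (a c').1 n = true}.Finite := by
  classical
  let e : ℕ → ℕ := Nat.nth fun n => x.1 n = true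
  have he : Function.Injective e := Nat.nth_injective x.2
  have hex : ∀ n, x.1 (e n) = true := fun n => Nat.nth_mem_of_infinite x.2 n
  let l : (ℕ → Bool) → ℕ → ℕ := fun c n => e (Encodable.encode ((List.range n).map c))
  have hl : ∀ c c' n m, l c n = l c' m → n = m ∧ ∀ k, k < n → c k = c' k := by
    intro c c' n m h
    have h1 := Encodable.encode_injective (he h)
    have h2 : n = m := by
      have := congrArg List.length h1
      simpa using this
    refine ⟨h2, fun k hk => ?_⟩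
    subst h2
    have h3 := congrArg (fun L => L[k]?) h1
    simpa [hk] using h3
  have hinf : ∀ c, (Set.range (l c)).Infinite := fun c =>
    Set.infinite_range_of_injective fun n m h => (hl c c n m h).1
  refine ⟨fun c => ⟨fun n => decide (n ∈ Set.range (l c)), ?_⟩, fun c => ?_, fun c c' hcc => ?_⟩
  · have : {n | decide (n ∈ Set.range (l c)) = true} = Set.range (l c) := by
      ext n
      simp
    rw [this]
    exact hinf c
  · show {n | decide (n ∈ Set.range (l c)) = true ∧ x.1 n = false}.Finite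
    have : {n | decide (n ∈ Set.range (l c)) = true ∧ x.1 n = false} = ∅ := by
      ext n
      constructor
      · rintro ⟨h1, h2⟩
        obtain ⟨m, rfl⟩ := of_decide_eq_true h1
        have h3 : x.1 (l c m) = true := hex _
        rw [h3] at h2
        exact absurd h2 (by simp)
      · exact fun h => h.elim
    rw [this]
    exact Set.finite_empty
  · obtain ⟨k, hk⟩ := Function.ne_iff.1 hcc
    show {n | decide (n ∈ Set.range (l c)) = true ∧
      decide (n ∈ Set.range (l c')) = true}.Finite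
    refine ((Set.finite_Iic k).image (l c)).subset ?_
    rintro n ⟨h1, h2⟩
    obtain ⟨m, rfl⟩ := of_decide_eq_true h1
    obtain ⟨m', hm'⟩ := of_decide_eq_true h2
    obtain ⟨-, h3⟩ := hl c c' m m' hm'.symm
    refine ⟨m, ?_, rfl⟩
    by_contra hlt
    exact hk (h3 k (not_le.1 hlt))

theorem few_not_dense (x : Inf) (H : Set Inf) (hH : #H < 𝔠) : ∃ z, z ≤ x ∧ ∀ y ∈ H, ¬ y ≤ z := by
  obtain ⟨a, ha, had⟩ := exists_ad x
  by_contra hcon
  push Not at hcon
  choose! y hyH hy using fun c => hcon (a c) (ha c)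
  have hinj : Function.Injective fun c => (⟨y c, hyH c⟩ : H) := by
    intro c c' h
    by_contra hne
    have hyy : y c = y c' := congrArg Subtype.val h
    have h1 := hy c
    have h2 := hy c'
    rw [← hyy] at h2
    apply (y c).2
    refine ((inf_le.1 h1).union ((inf_le.1 h2).union (had c c' hne))).subset ?_
    intro n hn
    have hn' : (y c).1 n = true := hn
    cases h3 : (a c).1 n
    · exact Or.inl ⟨hn', h3⟩
    · cases h4 : (a c').1 n
      · exact Or.inr (Or.inl ⟨hn', h4⟩)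
      · exact Or.inr (Or.inr ⟨h3, h4⟩)
  have hle := mk_le_of_injective hinj
  have hc : #(ℕ → Bool) = 𝔠 := by simp
  rw [hc] at hle
  exact absurd hH (not_lt.2 hle)

/-- the characteristic function -/
noncomputable def toInf (x : Set ℕ) (hx : x.Infinite) : Inf := by
  classical
  exact ⟨fun n => decide (n ∈ x), by
    have : {n | decide (n ∈ x) = true} = x := by
      ext n
      simp
    rw [this]
    exact hx⟩

theorem toInf_apply (x : Set ℕ) (hx : x.Infinite) (n : ℕ) :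
    (toInf x hx).1 n = true ↔ n ∈ x := by
  unfold toInf
  simp

theorem toInf_false (x : Set ℕ) (hx : x.Infinite) (n : ℕ) :
    (toInf x hx).1 n = false ↔ n ∉ x := by
  rw [← toInf_apply x hx n]
  simp

theorem toInf_le (x y : Set ℕ) (hx : x.Infinite) (hy : y.Infinite) :
    toInf y hy ≤ toInf x hx ↔ (y \ x).Finite := by
  rw [inf_le]
  have : {n | (toInf y hy).1 n = true ∧ (toInf x hx).1 n = false} = y \ x := by
    ext n
    exact and_congr (toInf_apply y hy n) (toInf_false x hx n)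
  rw [this]

theorem toInf_surj (z : Inf) : z = toInf {n | z.1 n = true} z.2 := by
  apply Subtype.ext
  funext n
  cases h : z.1 n
  · exact ((toInf_false _ z.2 n).2 (by simp [h])).symm
  · exact ((toInf_apply _ z.2 n).2 h).symm

/-- **The distributivity number of `P(ω)/fin` is `ℵ₁`.** -/
theorem hNumber (F : Set (Om → ℕ)) (hF : EverywhereDominating F) (hc : #F < 𝔠) :
    ∃ D : Om → Set (Set ℕ),
      (∀ d, ∀ x ∈ D d, x.Infinite ∧ ∀ y : Set ℕ, y.Infinite → (y \ x).Finite → y ∈ D d) ∧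
      (∀ d, ∀ x : Set ℕ, x.Infinite → ∃ y ∈ D d, y ⊆ x) ∧ ⋂ d, D d = ∅ := by
  obtain ⟨D, h1, h2, h3⟩ := distrib F hF ℕ Inf suslin_Iic fun x H hH =>
    few_not_dense x H ((hH.trans (max_nat hF)).trans_lt hc)
  refine ⟨fun d => {x | ∃ hx : x.Infinite, toInf x hx ∈ D d}, ?_, ?_, ?_⟩
  · rintro d x ⟨hx, hxD⟩
    exact ⟨hx, fun y hy hyx => ⟨hy, h1 d ((toInf_le x y hx hy).2 hyx) hxD⟩⟩
  · intro d x hx
    obtain ⟨z, hz, hzx⟩ := h2 d (toInf x hx)
    rw [toInf_surj z] at hz hzx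
    have hfin := (toInf_le x _ hx z.2).1 hzx
    have hinf : ({n | z.1 n = true} ∩ x).Infinite := by
      intro hf
      apply z.2
      refine (hfin.union hf).subset fun n hn => ?_
      by_cases hnx : n ∈ x
      · exact Or.inr ⟨hn, hnx⟩
      · exact Or.inl ⟨hn, hnx⟩
    refine ⟨{n | z.1 n = true} ∩ x, ⟨hinf, ?_⟩, Set.inter_subset_right⟩
    refine h1 d ((toInf_le _ _ z.2 hinf).2 ?_) hz
    have : ({n | z.1 n = true} ∩ x) \ {n | z.1 n = true} = ∅ := by
      ext n
      simp only [Set.mem_sdiff, Set.mem_inter_iff, Set.mem_empty_iff_false, iff_false]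
      tauto
    rw [this]
    exact Set.finite_empty
  · by_contra hne
    obtain ⟨x, hx⟩ := Set.nonempty_iff_ne_empty.2 hne
    have hx' := fun d => Set.mem_iInter.1 hx d
    obtain ⟨hxi, -⟩ := hx' (Classical.arbitrary Om)
    have hmem : toInf x hxi ∈ ⋂ d, D d := Set.mem_iInter.2 fun d => by
      obtain ⟨hxi', h⟩ := hx' d
      exact h
    rw [h3] at hmem
    exact hmem

/-- **Splitting and reaping.** -/
theorem splitDichotomy (F : Set (Om → ℕ)) (hF : EverywhereDominating F) :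
    (∃ s : Om → Set ℕ, ∀ y : Set ℕ, y.Infinite → ∃ d, (y ∩ s d).Infinite ∧ (y \ s d).Infinite) ∨
      ∃ H : Set (Set ℕ), #H ≤ #F ∧ (∀ y ∈ H, y.Infinite) ∧
        ∀ x : Set ℕ, ∃ y ∈ H, (y ∩ x).Finite ∨ (y \ x).Finite := by
  classical
  have hS : ∀ x : Set ℕ, SuslinOver ℕ {y : Inf | ({n | y.1 n = true} ∩ x).Finite ∨
      ({n | y.1 n = true} \ x).Finite} := by
    intro x
    have hcl : IsClosed {p : (ℕ → ℕ) × Inf | (p.1 1 = 0 ∧ ∀ k, p.1 0 ≤ k →
        ¬ (p.2.1 k = true ∧ k ∈ x)) ∨ (p.1 1 ≠ 0 ∧ ∀ k, p.1 0 ≤ k → ¬ (p.2.1 k = true ∧ k ∉ x))} := by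
      have hc1 : Continuous fun p : (ℕ → ℕ) × Inf => p.1 1 :=
        (continuous_apply 1).comp continuous_fst
      have e1 : IsClosed {p : (ℕ → ℕ) × Inf | p.1 1 = 0} :=
        (isClosed_discrete {n : ℕ | n = 0}).preimage hc1
      have e2 : IsClosed {p : (ℕ → ℕ) × Inf | p.1 1 ≠ 0} :=
        (isClosed_discrete {n : ℕ | n ≠ 0}).preimage hc1
      exact (e1.inter (closed_tail fun k b => ¬ (b = true ∧ k ∈ x))).union
        (e2.inter (closed_tail fun k b => ¬ (b = true ∧ k ∉ x)))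
    have h := suslin_nat _ hcl
    have he : {y : Inf | ({n | y.1 n = true} ∩ x).Finite ∨ ({n | y.1 n = true} \ x).Finite} =
        {z | ∃ w : ℕ → ℕ, (w, z) ∈ {p : (ℕ → ℕ) × Inf | (p.1 1 = 0 ∧ ∀ k, p.1 0 ≤ k →
        ¬ (p.2.1 k = true ∧ k ∈ x)) ∨ (p.1 1 ≠ 0 ∧ ∀ k, p.1 0 ≤ k →
          ¬ (p.2.1 k = true ∧ k ∉ x))}} := by
      ext y
      constructor
      · rintro (h | h)
        · obtain ⟨m, hm⟩ := (finite_iff_bound _).1 h
          exact ⟨fun i => if i = 0 then m else 0, Or.inl ⟨by simp, fun k hk => hm k (by simpa using hk)⟩⟩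
        · obtain ⟨m, hm⟩ := (finite_iff_bound _).1 h
          exact ⟨fun i => if i = 0 then m else 1, Or.inr ⟨by simp, fun k hk => hm k (by simpa using hk)⟩⟩
      · rintro ⟨w, ⟨-, h⟩ | ⟨-, h⟩⟩
        · exact Or.inl ((finite_iff_bound _).2 ⟨w 0, h⟩)
        · exact Or.inr ((finite_iff_bound _).2 ⟨w 0, h⟩)
    rw [he]
    exact h
  rcases relDichotomy F hF ℕ Inf (fun (x : Set ℕ) (y : Inf) => ({n | y.1 n = true} ∩ x).Finite ∨
      ({n | y.1 n = true} \ x).Finite) hS with ⟨t, ht⟩ | ⟨H, hH, h⟩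
  · refine Or.inl ⟨t, fun y hy => ?_⟩
    by_contra hcon
    push Not at hcon
    refine ht ⟨toInf y hy, fun d => ?_⟩
    have he : {n | (toInf y hy).1 n = true} = y := by
      ext n
      exact toInf_apply y hy n
    rw [he]
    by_cases h1 : (y ∩ t d).Finite
    · exact Or.inl h1
    · exact Or.inr (hcon d h1)
  · refine Or.inr ⟨(fun y : Inf => {n | y.1 n = true}) '' H,
      mk_image_le.trans (hH.trans (max_nat hF)), ?_, fun x => ?_⟩
    · rintro _ ⟨y, -, rfl⟩
      exact y.2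
    · obtain ⟨y, hy, hyx⟩ := h x
      exact ⟨_, ⟨y, hy, rfl⟩, hyx⟩

end Pool.Agent.Helper85.HD
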