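import Pool.Agent.Helper95.BWD.Window

/-!
# HittingDichotomy (MP_54d188_lc): the dichotomy for families of Suslin sets

Windows `lev p d m` (finite sets) catch all sequences of witnesses. For a closed set `R` of pairs
`(w, z)` put `Kset lev p d R = {z | ∃ w, (∀ m, w m ∈ lev p d 0 m) ∧ (w, z) ∈ R}`: a closed set.
-/

set_option autoImplicit false

open Cardinal Set

namespace Pool.Agent.Helper85.HD

open Pool.Agent.Helper95.BWD

/-- `R` codes the `K`-Suslin set `A` -/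
def Codes {K Z : Type} [TopologicalSpace Z] (R : Set ((ℕ → K) × Z)) (A : Set Z) : Prop :=
  (letI : TopologicalSpace K := ⊥; IsClosed R) ∧ A = {z | ∃ w, (w, z) ∈ R}

theorem exists_codes {K Z : Type} [TopologicalSpace Z] {A : Set Z} (hA : SuslinOver K A) :
    ∃ R : Set ((ℕ → K) × Z), Codes R A := by
  obtain ⟨R, hR, h⟩ := hA
  exact ⟨R, hR, h⟩

/-- the points of the set coded by `R` with a witness in the window `W` -/
def Win {K Z : Type} (W : ℕ → Set K) (R : Set ((ℕ → K) × Z)) : Set Z :=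
  {z | ∃ w : ℕ → K, (∀ m, w m ∈ W m) ∧ (w, z) ∈ R}

theorem win_closed {K Z : Type} [TopologicalSpace Z] {W : ℕ → Set K} (hW : ∀ m, (W m).Finite)
    {R : Set ((ℕ → K) × Z)} {A : Set Z} (hR : Codes R A) : IsClosed (Win W R) :=
  window_closed W hW R hR.1

theorem win_sub {K Z : Type} [TopologicalSpace Z] {W : ℕ → Set K}
    {R : Set ((ℕ → K) × Z)} {A : Set Z} (hR : Codes R A) : Win W R ⊆ A := by
  rintro z ⟨w, -, hw⟩
  rw [hR.2]
  exact ⟨w, hw⟩

/-- closed sets `L d` indexed by the countable ordinals: the intersection of all of them is the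
intersection of an initial segment -/
theorem lindelof {Z : Type} [TopologicalSpace Z] [HereditarilyLindelofSpace Z] (L : Om → Set Z)
    (hL : ∀ d, IsClosed (L d)) : ∃ d, ⋂ i ∈ Set.Iio d, L i ⊆ L d := by
  obtain ⟨T, hT, hTU⟩ := eq_open_union_countable (fun d => (L d)ᶜ)
    (fun d => (hL d).isOpen_compl)
  obtain ⟨d, hd⟩ := bdd hT
  refine ⟨d, fun z hz => ?_⟩
  by_contra hzd
  have h1 : z ∈ ⋃ i, (L i)ᶜ := Set.mem_iUnion.2 ⟨d, hzd⟩
  rw [← hTU] at h1
  obtain ⟨i, hi, hzi⟩ := Set.mem_iUnion₂.1 h1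
  exact hzi (Set.mem_iInter₂.1 hz i (hd i hi))

/-- a choice of a point in a set (an arbitrary point if the set is empty) -/
noncomputable def pt {Z : Type} [Nonempty Z] (S : Set Z) : Z :=
  Classical.epsilon fun z => z ∈ S

theorem pt_mem {Z : Type} [Nonempty Z] {S : Set Z} (h : S.Nonempty) : pt S ∈ S :=
  Classical.epsilon_spec (p := fun z => z ∈ S) h

/-- **Windows.** The parameters: `#P ≤ max #F (cofNum K)`. -/
theorem windows (F : Set (Om → ℕ)) (hF : EverywhereDominating F) (K : Type) :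
    ∃ P : Type, #P ≤ max #F (cofNum K) ∧ ∃ lev : P → Om → ℕ → Set K,
      (∀ p d m, (lev p d m).Finite) ∧
      ∀ x : Om → ℕ → K, ∃ p, ∀ d m, x d m ∈ lev p d m := by
  obtain ⟨C, hC, hcard⟩ := cofNum_mem K
  obtain ⟨P, hP, lev, h1, h2⟩ := catching F hF K C hC
  rw [hcard] at hP
  refine ⟨P, hP, fun p d m => lev p d 0 m, fun p d m => h1 p d 0 m, fun x => ?_⟩
  obtain ⟨p, hp⟩ := h2 fun d _ m => x d m
  exact ⟨p, fun d m => hp d 0 m⟩

/-- **The diagonal argument.** `R d` codes `T d`, `lev` catches all sequences of witnesses, and for every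
`p` and `d` the point chosen from the intersection of the windows below `d` does not belong to `T d`.
Then the sets `T d` have empty intersection. -/
theorem diagonal {K Z P : Type} [TopologicalSpace Z] [HereditarilyLindelofSpace Z] [Nonempty Z]
    (lev : P → Om → ℕ → Set K) (hlev : ∀ p d m, (lev p d m).Finite)
    (hcatch : ∀ x : Om → ℕ → K, ∃ p, ∀ d m, x d m ∈ lev p d m)
    (T : Om → Set Z) (R : Om → Set ((ℕ → K) × Z)) (hR : ∀ d, Codes (R d) (T d))
    (havoid : ∀ p d, pt (⋂ i ∈ Set.Iio d, Win (lev p i) (R i)) ∉ T d) : ⋂ d, T d = ∅ := by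
  by_contra hne
  obtain ⟨y, hy⟩ := Set.nonempty_iff_ne_empty.2 hne
  have hw : ∀ d, ∃ w : ℕ → K, (w, y) ∈ R d := by
    intro d
    have := Set.mem_iInter.1 hy d
    rw [(hR d).2] at this
    exact this
  choose w hw using hw
  obtain ⟨p, hp⟩ := hcatch w
  have hyW : ∀ d, y ∈ Win (lev p d) (R d) := fun d => ⟨w d, hp d, hw d⟩
  obtain ⟨d, hd⟩ := lindelof (fun i => Win (lev p i) (R i)) fun i => win_closed (hlev p i) (hR i)
  have hne' : (⋂ i ∈ Set.Iio d, Win (lev p i) (R i)).Nonempty :=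
    ⟨y, Set.mem_iInter₂.2 fun i _ => hyW i⟩
  exact havoid p d (win_sub (hR d) (hd (pt_mem hne')))

/-- **The dichotomy.** -/
theorem dichotomy (F : Set (Om → ℕ)) (hF : EverywhereDominating F) (K Y : Type)
    [TopologicalSpace Y] [HereditarilyLindelofSpace Y] (𝒜 : Set (Set Y))
    (h𝒜 : ∀ A ∈ 𝒜, SuslinOver K A) :
    (∃ t : Om → Set Y, (∀ d, t d ∈ 𝒜) ∧ ⋂ d, t d = ∅) ∨
      ∃ H : Set Y, #H ≤ max #F (cofNum K) ∧ ∀ A ∈ 𝒜, (A ∩ H).Nonempty := by
  classical
  by_cases hYne : Nonempty Y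
  swap
  · by_cases hAne : 𝒜.Nonempty
    · obtain ⟨A, hA⟩ := hAne
      refine Or.inl ⟨fun _ => A, fun _ => hA, ?_⟩
      ext y
      exact absurd ⟨y⟩ hYne
    · refine Or.inr ⟨∅, by simp, fun A hA => absurd ⟨A, hA⟩ hAne⟩
  by_cases hH : ∃ H : Set Y, #H ≤ max #F (cofNum K) ∧ ∀ A ∈ 𝒜, (A ∩ H).Nonempty
  · exact Or.inr hH
  left
  push Not at hH
  obtain ⟨P, hP, lev, hlev, hcatch⟩ := windows F hF K
  choose! R hR using fun A (hA : A ∈ 𝒜) => exists_codes (h𝒜 A hA)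
  -- the recursion
  let g : (d : Om) → (∀ i, i < d → Set Y) → Set Y := fun d s =>
    Classical.epsilon fun A => A ∈ 𝒜 ∧
      ∀ p, pt (⋂ i, ⋂ h : i < d, Win (lev p i) (R (s i h))) ∉ A
  have hg : ∀ (d : Om) (s : ∀ i, i < d → Set Y), g d s ∈ 𝒜 ∧
      ∀ p, pt (⋂ i, ⋂ h : i < d, Win (lev p i) (R (s i h))) ∉ g d s := by
    intro d s
    refine Classical.epsilon_spec (p := fun A => A ∈ 𝒜 ∧
      ∀ p, pt (⋂ i, ⋂ h : i < d, Win (lev p i) (R (s i h))) ∉ A) ?_
    obtain ⟨A, hA, hAe⟩ := hH (Set.range fun p => pt (⋂ i, ⋂ h : i < d,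
      Win (lev p i) (R (s i h)))) (mk_range_le.trans hP)
    refine ⟨A, hA, fun p hp => ?_⟩
    have : pt (⋂ i, ⋂ h : i < d, Win (lev p i) (R (s i h))) ∈ (∅ : Set Y) := by
      rw [← hAe]
      exact ⟨hp, ⟨p, rfl⟩⟩
    exact this
  let t : Om → Set Y := wf.fix (fun d s => g d s)
  have ht : ∀ d, t d = g d fun i _ => t i := fun d => wf.fix_eq _ d
  have ht1 : ∀ d, t d ∈ 𝒜 := fun d => by
    rw [ht d]
    exact (hg d _).1
  refine ⟨t, ht1, ?_⟩
  refine diagonal lev hlev hcatch t (fun d => R (t d)) (fun d => hR _ (ht1 d)) fun p d => ?_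
  rw [ht d]
  exact (hg d fun i _ => t i).2 p

end Pool.Agent.Helper85.HD
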