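import Pool.Agent.Helper85.HD.Core

/-!
# HittingDichotomy (MP_54d188_lc): few dense elements or few open dense sets

`P` a preorder with a hereditarily Lindelof topology, all cones `Iic x` are `K`-Suslin, and no set of at most
`max #F (cofNum K)` elements is dense below any element. Then there are `ℵ₁` open dense subsets of `P` with
empty intersection. The proof constructs a tree of maximal antichains.
-/

set_option autoImplicit false

open Cardinal Set

namespace Pool.Agent.Helper85.HD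

open Pool.Agent.Helper95.BWD

section order
variable {P : Type} [Preorder P]

/-- `x` and `y` have no common lower bound -/
def Inc (x y : P) : Prop := ∀ z, z ≤ x → ¬ z ≤ y

/-- a set of pairwise incompatible elements -/
def Anti (A : Set P) : Prop := ∀ x ∈ A, ∀ y ∈ A, x ≠ y → Inc x y

theorem exists_maxAnti (O : Set P) : ∃ A : Set P, A ⊆ O ∧ Anti A ∧
    ∀ x ∈ O, ∃ a ∈ A, ∃ z, z ≤ x ∧ z ≤ a := by
  obtain ⟨A, hA⟩ := zorn_subset {A : Set P | A ⊆ O ∧ Anti A} (by
    intro c hc hchain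
    refine ⟨⋃₀ c, ⟨Set.sUnion_subset fun A hA => (hc hA).1, ?_⟩,
      fun A hA => Set.subset_sUnion_of_mem hA⟩
    rintro x ⟨A, hA, hxA⟩ y ⟨B, hB, hyB⟩ hxy
    rcases hchain.total hA hB with h | h
    · exact (hc hB).2 x (h hxA) y hyB hxy
    · exact (hc hA).2 x hxA y (h hyB) hxy)
  refine ⟨A, hA.prop.1, hA.prop.2, fun x hx => ?_⟩
  by_contra hcon
  push Not at hcon
  have hxA : x ∉ A := fun h => hcon x h x le_rfl le_rfl
  have hins : insert x A ∈ {A : Set P | A ⊆ O ∧ Anti A} := by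
    refine ⟨Set.insert_subset hx hA.prop.1, ?_⟩
    intro y hy z hz hyz
    rcases Set.mem_insert_iff.1 hy with hy' | hy'
    · rcases Set.mem_insert_iff.1 hz with hz' | hz'
      · exact absurd (hy'.trans hz'.symm) hyz
      · rw [hy']
        exact fun v hv => hcon z hz' v hv
    · rcases Set.mem_insert_iff.1 hz with hz' | hz'
      · rw [hz']
        exact fun v hv hv' => hcon y hy' v hv' hv
      · exact hA.prop.2 y hy' z hz' hyz
  exact hxA (hA.le_of_ge hins (Set.subset_insert x A) (Set.mem_insert x A))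

/-- a maximal antichain in `O` -/
noncomputable def mA (O : Set P) : Set P := Classical.choose (exists_maxAnti O)

theorem mA_sub (O : Set P) : mA O ⊆ O := (Classical.choose_spec (exists_maxAnti O)).1

theorem mA_anti (O : Set P) : Anti (mA O) := (Classical.choose_spec (exists_maxAnti O)).2.1

theorem mA_max (O : Set P) : ∀ x ∈ O, ∃ a ∈ mA O, ∃ z, z ≤ x ∧ z ≤ a :=
  (Classical.choose_spec (exists_maxAnti O)).2.2

/-- `ω₁` open sets which are dense below `x` have a common element below `x` -/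
def Dist (x : P) : Prop := ∀ D : Om → Set P, (∀ d, IsLowerSet (D d)) →
  (∀ d, ∀ z, z ≤ x → ∃ w ∈ D d, w ≤ z) → ∃ w, w ≤ x ∧ ∀ d, w ∈ D d

/-- patching along a maximal antichain -/
theorem patch (h : ∀ x : P, ∃ z, z ≤ x ∧ ¬ Dist z) :
    ∃ D : Om → Set P, (∀ d, IsLowerSet (D d)) ∧ (∀ d x, ∃ z ∈ D d, z ≤ x) ∧ ⋂ d, D d = ∅ := by
  let W : Set P := {x | ¬ Dist x}
  have hW : ∀ x ∈ W, ∃ D : Om → Set P, (∀ d, IsLowerSet (D d)) ∧
      (∀ d, ∀ z, z ≤ x → ∃ w ∈ D d, w ≤ z) ∧ ¬ ∃ w, w ≤ x ∧ ∀ d, w ∈ D d := by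
    intro x hx
    have hx' : ¬ Dist x := hx
    unfold Dist at hx'
    push Not at hx'
    obtain ⟨D, h1, h2, h3⟩ := hx'
    refine ⟨D, h1, h2, ?_⟩
    rintro ⟨w, hw, hw'⟩
    obtain ⟨d, hd⟩ := h3 w hw
    exact hd (hw' d)
  choose! D h1 h2 h3 using hW
  refine ⟨fun d => {z | ∃ x ∈ mA W, z ≤ x ∧ z ∈ D x d}, ?_, ?_, ?_⟩
  · rintro d z z' hz ⟨x, hx, hzx, hzD⟩
    exact ⟨x, hx, hz.trans hzx, h1 x (mA_sub W hx) d hz hzD⟩
  · intro d p
    obtain ⟨q, hqp, hq⟩ := h p
    obtain ⟨x, hx, r, hrq, hrx⟩ := mA_max W q hq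
    obtain ⟨s, hs, hsr⟩ := h2 x (mA_sub W hx) d r hrx
    exact ⟨s, ⟨x, hx, hsr.trans hrx, hs⟩, hsr.trans (hrq.trans hqp)⟩
  · by_contra hne
    obtain ⟨z, hz⟩ := Set.nonempty_iff_ne_empty.2 hne
    have hz' : ∀ d, ∃ x ∈ mA W, z ≤ x ∧ z ∈ D x d := fun d => Set.mem_iInter.1 hz d
    obtain ⟨x, hx, hzx, -⟩ := hz' (Classical.arbitrary Om)
    refine h3 x (mA_sub W hx) ⟨z, hzx, fun d => ?_⟩
    obtain ⟨x', hx', hzx', hzD⟩ := hz' d
    by_cases hxx : x = x'
    · rw [hxx]
      exact hzD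
    · exact absurd hzx' (mA_anti W x hx x' hx' hxx z hzx)

end order

theorem distrib (F : Set (Om → ℕ)) (hF : EverywhereDominating F) (K P : Type) [Preorder P]
    [TopologicalSpace P] [HereditarilyLindelofSpace P] (hP : ∀ x : P, SuslinOver K (Set.Iic x))
    (hdense : ∀ (x : P) (H : Set P), #H ≤ max #F (cofNum K) → ∃ z, z ≤ x ∧ ∀ y ∈ H, ¬ y ≤ z) :
    ∃ D : Om → Set P, (∀ d, IsLowerSet (D d)) ∧ (∀ d x, ∃ z ∈ D d, z ≤ x) ∧ ⋂ d, D d = ∅ := by
  classical
  apply patch
  by_contra hcon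
  push Not at hcon
  obtain ⟨x₀, hx₀⟩ := hcon
  have : Nonempty P := ⟨x₀⟩
  obtain ⟨Q, hQ, lev, hlev, hcatch⟩ := windows F hF K
  choose R hR using fun x : P => exists_codes (hP x)
  -- the guess
  let y : Q → Om → (Om → P) → P := fun p d t => pt (⋂ i ∈ Set.Iio d, Win (lev p i) (R (t i)))
  let O : Om → (Om → P) → Set P := fun d t => {x | (∀ i, i < d → x ≤ t i) ∧ ∀ p, ¬ y p d t ≤ x}
  have hcong : ∀ (d : Om) (t t' : Om → P), (∀ i, i < d → t i = t' i) → O d t = O d t' := by
    intro d t t' h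
    have hy : ∀ p, y p d t = y p d t' := by
      intro p
      show pt _ = pt _
      congr 1
      refine Set.iInter₂_congr fun i hi => ?_
      rw [h i hi]
    ext x
    constructor
    · rintro ⟨h1, h2⟩
      exact ⟨fun i hi => h i hi ▸ h1 i hi, fun p => hy p ▸ h2 p⟩
    · rintro ⟨h1, h2⟩
      exact ⟨fun i hi => (h i hi).symm ▸ h1 i hi, fun p => (hy p).symm ▸ h2 p⟩
  -- uniqueness
  have huniq : ∀ (d : Om) (t t' : Om → P) (x : P),
      (∀ i, i ≤ d → t i ∈ mA (O i t) ∧ x ≤ t i) → (∀ i, i ≤ d → t' i ∈ mA (O i t') ∧ x ≤ t' i) →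
      ∀ i, i ≤ d → t i = t' i := by
    intro d t t' x ht ht' i
    induction i using wf.induction with
    | _ i ih =>
      intro hi
      have hO : O i t = O i t' := hcong i t t' fun j hj => ih j hj (hj.le.trans hi)
      by_contra hne
      have h1 := (ht i hi).1
      have h2 := (ht' i hi).1
      rw [hO] at h1
      exact mA_anti _ _ h1 _ h2 hne x (ht i hi).2 (ht' i hi).2
  let D : Om → Set P := fun d => {x | ∃ t : Om → P, ∀ i, i ≤ d → t i ∈ mA (O i t) ∧ x ≤ t i}
  have hDlow : ∀ d, IsLowerSet (D d) := by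
    rintro d x z hz ⟨t, ht⟩
    exact ⟨t, fun i hi => ⟨(ht i hi).1, hz.trans (ht i hi).2⟩⟩
  -- the common sequence
  have hcom : ∀ (S : Set Om) (x : P), (∀ i ∈ S, ∀ j, j ≤ i → j ∈ S) → (∀ d ∈ S, x ∈ D d) →
      ∃ t : Om → P, ∀ i ∈ S, t i ∈ mA (O i t) ∧ x ≤ t i := by
    intro S x hS hx
    have hx' : ∀ d : Om, ∃ t : Om → P, d ∈ S → ∀ i, i ≤ d → t i ∈ mA (O i t) ∧ x ≤ t i := by
      intro d
      by_cases hd : d ∈ S
      · obtain ⟨t, ht⟩ := hx d hd
        exact ⟨t, fun _ => ht⟩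
      · exact ⟨fun _ => x, fun h => absurd h hd⟩
    choose T hT using hx'
    have hTT : ∀ d ∈ S, ∀ i, i ≤ d → T d i = T i i := by
      intro d hd i hi
      have hiS := hS d hd i hi
      exact huniq i (T d) (T i) x (fun j hj => hT d hd j (hj.trans hi)) (hT i hiS) i le_rfl
    refine ⟨fun i => T i i, fun i hi => ?_⟩
    have hO : O i (T i) = O i fun i => T i i :=
      hcong i _ _ fun j hj => hTT i hi j hj.le
    have := hT i hi i le_rfl
    rw [hO] at this
    exact this
  -- density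
  have hDdense : ∀ d, ∀ z, z ≤ x₀ → ∃ w ∈ D d, w ≤ z := by
    intro d
    induction d using wf.induction with
    | _ d ih =>
      intro z hz
      obtain ⟨w, hwz, hw⟩ := hx₀ z hz (fun i => if i < d then D i else Set.univ) (by
        intro i
        by_cases hi : i < d
        · simp only [hi, if_true]
          exact hDlow i
        · simp only [hi, if_false]
          exact isLowerSet_univ) (by
        intro i v hv
        by_cases hi : i < d
        · simp only [hi, if_true]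
          exact ih i hi v (hv.trans hz)
        · simp only [hi, if_false]
          exact ⟨v, Set.mem_univ v, le_rfl⟩)
      have hw' : ∀ i ∈ Set.Iio d, w ∈ D i := by
        intro i hi
        have := hw i
        simp only [Set.mem_Iio.1 hi, if_true] at this
        exact this
      obtain ⟨t, ht⟩ := hcom (Set.Iio d) w (fun i hi j hj => lt_of_le_of_lt hj hi) hw'
      obtain ⟨w', hw'w, hw'y⟩ := hdense w (Set.range fun p => y p d t) (mk_range_le.trans hQ)
      have hw'O : w' ∈ O d t :=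
        ⟨fun i hi => hw'w.trans (ht i hi).2, fun p => hw'y _ ⟨p, rfl⟩⟩
      obtain ⟨a, ha, v, hvw', hva⟩ := mA_max (O d t) w' hw'O
      refine ⟨v, ⟨Function.update t d a, fun i hi => ?_⟩, hvw'.trans (hw'w.trans hwz)⟩
      have hO : O i (Function.update t d a) = O i t :=
        hcong i _ _ fun j hj => Function.update_of_ne (ne_of_lt (lt_of_lt_of_le hj hi)) _ _
      rw [hO]
      rcases eq_or_lt_of_le hi with rfl | hlt
      · rw [Function.update_self]
        exact ⟨ha, hva⟩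
      · rw [Function.update_of_ne hlt.ne]
        exact ⟨(ht i hlt).1, hvw'.trans (hw'w.trans (ht i hlt).2)⟩
  obtain ⟨x, -, hx⟩ := hx₀ x₀ le_rfl D hDlow hDdense
  obtain ⟨t, ht⟩ := hcom Set.univ x (fun _ _ _ _ => Set.mem_univ _) fun d _ => hx d
  have hemp := diagonal lev hlev hcatch (fun d => Set.Iic (t d)) (fun d => R (t d))
    (fun d => hR (t d)) fun p d => (mA_sub _ (ht d (Set.mem_univ d)).1).2 p
  have hxm : x ∈ ⋂ d, Set.Iic (t d) := Set.mem_iInter.2 fun d => (ht d (Set.mem_univ d)).2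
  rw [hemp] at hxm
  exact hxm

end Pool.Agent.Helper85.HD
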