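import Pool.Agent.Helper85.HD.Core

/-!
# HittingDichotomy (MP_54d188_lc): the line is covered by `#F` null sets
-/

set_option autoImplicit false

open Cardinal Set MeasureTheory Topology Pointwise

namespace Pool.Agent.Helper85.HD

open Pool.Agent.Helper95.BWD

/-- domination of functions of two variables -/
theorem dom2 (F : Set (Om → ℕ)) (hF : EverywhereDominating F) :
    ∃ φ : (Om → ℕ) → Om → ℕ → ℕ, ∀ g : Om → ℕ → ℕ, ∃ f ∈ F, ∀ d n, g d n < φ f d n := by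
  have hcard : #(Om × ℕ) = #Om := by
    simp only [mk_prod, lift_id, mk_Om, mk_nat]
    exact mul_eq_left aleph0_lt_aleph_one.le aleph0_lt_aleph_one.le aleph0_ne_zero
  obtain ⟨ψ⟩ := Cardinal.eq.1 hcard
  refine ⟨fun f d n => f (ψ (d, n)), fun g => ?_⟩
  obtain ⟨f, hf, h⟩ := hF fun a => g (ψ.symm a).1 (ψ.symm a).2
  refine ⟨f, hf, fun d n => ?_⟩
  have := h (ψ (d, n))
  simpa using this

theorem exists_inter {Z B : Set ℝ} (hZ : MeasurableSet Z) (hB : MeasurableSet B)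
    (hZ0 : volume Z ≠ 0) (hB0 : volume B ≠ 0) :
    ∃ x : ℝ, volume (Z ∩ {z | z - x ∈ B}) ≠ 0 := by
  by_contra hcon
  push Not at hcon
  have h1 : ∀ᵐ x : ℝ, ∀ᵐ z : ℝ, ¬ (z ∈ Z ∧ z - x ∈ B) := by
    refine Filter.Eventually.of_forall fun x => ?_
    rw [ae_iff]
    simp only [not_not]
    exact hcon x
  have hmeas : MeasurableSet {p : ℝ × ℝ | ¬ (p.2 ∈ Z ∧ p.2 - p.1 ∈ B)} := by
    refine MeasurableSet.compl ?_
    exact (measurable_snd hZ).inter ((measurable_snd.sub measurable_fst) hB)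
  rw [Measure.ae_ae_comm hmeas] at h1
  have h2 : ∃ z ∈ Z, ∀ᵐ x : ℝ, ¬ (z ∈ Z ∧ z - x ∈ B) := by
    by_contra hno
    push Not at hno
    apply hZ0
    refine measure_mono_null ?_ (ae_iff.1 h1)
    intro z hz
    exact hno z hz
  obtain ⟨z, hz, h3⟩ := h2
  apply hB0
  have h4 : ∀ᵐ x : ℝ, x ∉ B := by
    have hq : Measure.QuasiMeasurePreserving (fun x : ℝ => z - x) volume volume :=
      quasiMeasurePreserving_sub_left volume z
    have h5 : ∀ᵐ x : ℝ, z - x ∉ B := h3.mono fun x hx hxB => hx ⟨hz, hxB⟩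
    have h6 := hq.ae h5
    refine h6.mono fun x hx => ?_
    simpa using hx
  rw [ae_iff] at h4
  simpa using h4

theorem ergo {Z X : Set ℝ} (hZ : MeasurableSet Z) (hZ0 : volume Z ≠ 0) (hX0 : volume X ≠ 0) :
    ∃ x ∈ X, ∃ z ∈ Z, ∃ q : ℚ, z - x = q := by
  by_contra hcon
  push Not at hcon
  let B : Set ℝ := ⋂ q : ℚ, {x | x + (q : ℝ) ∈ Z}ᶜ
  have hB : MeasurableSet B :=
    MeasurableSet.iInter fun q => ((measurable_id.add_const (q : ℝ)) hZ).compl
  have hXB : X ⊆ B := by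
    intro x hx
    refine Set.mem_iInter.2 fun q hq => ?_
    exact hcon x hx _ hq q (by ring)
  have hB0 : volume B ≠ 0 := fun h => hX0 (measure_mono_null hXB h)
  obtain ⟨x, hx⟩ := exists_inter hZ hB hZ0 hB0
  let E : Set ℝ := Z ∩ {z | z - x ∈ B}
  have hE : MeasurableSet E := hZ.inter ((measurable_id.sub_const x) hB)
  have hst := Measure.sub_mem_nhds_zero_of_addHaar_pos volume E hE (pos_iff_ne_zero.2 hx)
  obtain ⟨ε, hε, hball⟩ := Metric.mem_nhds_iff.1 hst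
  obtain ⟨q, hq1, hq2⟩ := exists_rat_btwn (show -x < -x + ε by linarith)
  have hmem : (q : ℝ) + x ∈ E - E := by
    apply hball
    rw [Metric.mem_ball, Real.dist_eq, sub_zero, abs_of_pos (by linarith)]
    linarith
  obtain ⟨e', he', e, he, hee⟩ := Set.mem_sub.1 hmem
  have h1 : e' - x ∈ B := he'.2
  have h2 := Set.mem_iInter.1 h1 (-q)
  apply h2
  show e' - x + ((-q : ℚ) : ℝ) ∈ Z
  have h3 : e' - x + ((-q : ℚ) : ℝ) = e := by
    push_cast
    linarith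
  rw [h3]
  exact he.1

theorem exists_U : ∃ U : ℕ → Set ℝ, (∀ n, IsOpen (U n)) ∧ (∀ m n, m ≤ n → U n ⊆ U m) ∧
    (∀ n, ∀ q : ℚ, (q : ℝ) ∈ U n) ∧ volume (⋂ n, U n) = 0 := by
  have h0 : volume (Set.range ((↑) : ℚ → ℝ)) = 0 := (Set.countable_range _).measure_zero volume
  have h1 : ∀ n : ℕ, ∃ V ⊇ Set.range ((↑) : ℚ → ℝ), IsOpen V ∧
      volume V < ENNReal.ofReal (1 / ((n : ℝ) + 1)) := by
    intro n
    refine Set.exists_isOpen_lt_of_lt _ _ ?_
    rw [h0]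
    exact ENNReal.ofReal_pos.2 (by positivity)
  choose V hV1 hV2 hV3 using h1
  refine ⟨fun n => ⋂ i ∈ Finset.range (n + 1), V i, fun n => ?_, fun m n h => ?_, fun n q => ?_, ?_⟩
  · exact isOpen_biInter_finset fun i _ => hV2 i
  · refine Set.iInter₂_mono' fun i hi => ⟨i, ?_, subset_rfl⟩
    rw [Finset.mem_range] at hi ⊢
    omega
  · exact Set.mem_iInter₂.2 fun i _ => hV1 i ⟨q, rfl⟩
  · refine le_antisymm ?_ bot_le
    have hle : ∀ n : ℕ, volume (⋂ n, ⋂ i ∈ Finset.range (n + 1), V i) ≤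
        ENNReal.ofReal (1 / ((n : ℝ) + 1)) := by
      intro n
      refine (measure_mono ?_).trans (hV3 n).le
      intro x hx
      exact Set.mem_iInter₂.1 (Set.mem_iInter.1 hx n) n (Finset.mem_range.2 (Nat.lt_succ_self n))
    have hlim : Filter.Tendsto (fun n : ℕ => ENNReal.ofReal (1 / ((n : ℝ) + 1))) Filter.atTop
        (𝓝 0) := by
      rw [← ENNReal.ofReal_zero]
      exact ENNReal.tendsto_ofReal tendsto_one_div_add_atTop_nhds_zero_nat
    exact ge_of_tendsto' hlim hle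

/-- **Step 2.** -/
theorem cov_of_nonnull (F : Set (Om → ℕ)) (hF : EverywhereDominating F) (t : Om → ℝ)
    (ht : volume (Set.range t) ≠ 0) :
    ∃ N : Set (Set ℝ), #N ≤ #F ∧ (∀ A ∈ N, volume A = 0) ∧ ⋃₀ N = Set.univ := by
  obtain ⟨U, hU1, hU2, hU3, hU4⟩ := exists_U
  have hF1 : ℵ₁ < #F := aleph_one_lt F (mod_of_everywhere hF)
  have hF0 : ℵ₀ ≤ #F := aleph0_lt_aleph_one.le.trans hF1.le
  let N0 : Om → Set ℝ := fun d => {y | y - t d ∈ ⋂ n, U n}
  let E : (Om → ℕ) → Set ℝ := fun f => {y | ∀ d, y - t d ∉ U (f d)}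
  refine ⟨Set.range N0 ∪ E '' F, ?_, ?_, ?_⟩
  · refine (mk_union_le _ _).trans ?_
    refine (add_le_add (mk_range_le.trans (le_of_eq_of_le mk_Om hF1.le)) mk_image_le).trans ?_
    rw [add_eq_self hF0]
  · rintro A (⟨d, rfl⟩ | ⟨f, -, rfl⟩)
    · exact (measurePreserving_sub_right volume (t d)).quasiMeasurePreserving.preimage_null hU4
    · -- `E f` is null
      have hex : ∃ n : ℕ, volume (t '' {d | f d ≤ n}) ≠ 0 := by
        by_contra hno
        push Not at hno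
        apply ht
        refine measure_mono_null ?_ (measure_iUnion_null hno)
        rintro _ ⟨d, rfl⟩
        exact Set.mem_iUnion.2 ⟨f d, d, show f d ≤ f d from le_rfl, rfl⟩
      obtain ⟨n, hn⟩ := hex
      let Z : Set ℝ := ⋂ x ∈ t '' {d | f d ≤ n}, {y | y - x ∉ U n}
      have hZc : IsClosed Z := by
        refine isClosed_biInter fun x _ => ?_
        exact ((hU1 n).preimage (continuous_id.sub continuous_const)).isClosed_compl
      have hEZ : E f ⊆ Z := by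
        intro y hy
        refine Set.mem_iInter₂.2 ?_
        rintro _ ⟨d, hd, rfl⟩ hyU
        exact hy d (hU2 _ _ hd hyU)
      refine measure_mono_null hEZ ?_
      by_contra hZ0
      obtain ⟨x, hx, z, hz, q, hq⟩ := ergo hZc.measurableSet hZ0 hn
      refine Set.mem_iInter₂.1 hz x hx ?_
      rw [hq]
      exact hU3 n q
  · refine Set.eq_univ_of_forall fun y => ?_
    by_cases h : ∃ d, ∀ n, y - t d ∈ U n
    · obtain ⟨d, hd⟩ := h
      exact Set.mem_sUnion.2 ⟨N0 d, Or.inl ⟨d, rfl⟩, Set.mem_iInter.2 hd⟩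
    · push Not at h
      choose g hg using h
      obtain ⟨f, hf, hfg⟩ := hF g
      exact Set.mem_sUnion.2 ⟨E f, Or.inr ⟨f, hf, rfl⟩, fun d hd =>
        hg d (hU2 _ _ (hfg d).le hd)⟩

/-- **Step 1.** -/
theorem nonnull_of_cov (F : Set (Om → ℕ)) (hF : EverywhereDominating F)
    (hcov : ∀ N : Set (Set ℝ), #N ≤ #F → (∀ A ∈ N, volume A = 0) → ⋃₀ N ≠ Set.univ) :
    ∃ t : Om → ℝ, volume (Set.range t) ≠ 0 := by
  classical
  obtain ⟨φ, hφ⟩ := dom2 F hF
  let W : (Om → ℕ) → (d : Om) → (∀ i, i < d → ℝ) → Set ℝ := fun f d s =>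
    ⋂ n : ℕ, ⋃ i, ⋃ h : i < d, Metric.ball (s i h) (1 / ((φ f i n : ℝ) + 1))
  let g : (d : Om) → (∀ i, i < d → ℝ) → ℝ := fun d s =>
    Classical.epsilon fun x => ∀ f ∈ F, volume (W f d s) = 0 → x ∉ W f d s
  have hg : ∀ (d : Om) (s : ∀ i, i < d → ℝ), ∀ f ∈ F, volume (W f d s) = 0 → g d s ∉ W f d s := by
    intro d s
    refine Classical.epsilon_spec (p := fun x => ∀ f ∈ F, volume (W f d s) = 0 → x ∉ W f d s) ?_
    have h1 := hcov ((fun f => W f d s) '' {f | f ∈ F ∧ volume (W f d s) = 0})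
      (mk_image_le.trans (mk_le_mk_of_subset fun f hf => hf.1)) (by
        rintro _ ⟨f, hf, rfl⟩
        exact hf.2)
    obtain ⟨x, hx⟩ := (Set.ne_univ_iff_exists_notMem _).1 h1
    refine ⟨x, fun f hf h0 hxW => hx ?_⟩
    exact Set.mem_sUnion.2 ⟨_, ⟨f, ⟨hf, h0⟩, rfl⟩, hxW⟩
  let t : Om → ℝ := wf.fix (fun d s => g d s)
  have ht : ∀ d, t d = g d fun i _ => t i := fun d => wf.fix_eq _ d
  refine ⟨t, fun hnull => ?_⟩
  have h1 : ∀ n : ℕ, ∃ V ⊇ Set.range t, IsOpen V ∧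
      volume V < ENNReal.ofReal (1 / ((n : ℝ) + 1)) := by
    intro n
    refine Set.exists_isOpen_lt_of_lt _ _ ?_
    rw [hnull]
    exact ENNReal.ofReal_pos.2 (by positivity)
  choose V hV1 hV2 hV3 using h1
  have h2 : ∀ d n, ∃ r : ℕ, Metric.ball (t d) (1 / ((r : ℝ) + 1)) ⊆ V n := by
    intro d n
    obtain ⟨ε, hε, hball⟩ := Metric.isOpen_iff.1 (hV2 n) (t d) (hV1 n ⟨d, rfl⟩)
    obtain ⟨r, hr⟩ := exists_nat_one_div_lt hε
    exact ⟨r, (Metric.ball_subset_ball hr.le).trans hball⟩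
  choose r hr using h2
  obtain ⟨f, hf, hfr⟩ := hφ r
  have hball : ∀ d n, Metric.ball (t d) (1 / ((φ f d n : ℝ) + 1)) ⊆ V n := by
    intro d n
    refine (Metric.ball_subset_ball ?_).trans (hr d n)
    apply one_div_le_one_div_of_le (by positivity)
    have := (hfr d n).le
    have h' : (r d n : ℝ) ≤ (φ f d n : ℝ) := by exact_mod_cast this
    linarith
  -- Lindelof
  have hL : ∀ n : ℕ, ∃ T : Set Om, T.Countable ∧
      ⋃ i ∈ T, Metric.ball (t i) (1 / ((φ f i n : ℝ) + 1)) =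
        ⋃ i, Metric.ball (t i) (1 / ((φ f i n : ℝ) + 1)) :=
    fun n => TopologicalSpace.isOpen_iUnion_countable _ fun _ => Metric.isOpen_ball
  choose T hT hTU using hL
  obtain ⟨d, hd⟩ := bdd (Set.countable_iUnion hT)
  have hnullW : volume (W f d fun i _ => t i) = 0 := by
    refine le_antisymm ?_ bot_le
    have hle : ∀ n : ℕ, volume (W f d fun i _ => t i) ≤ ENNReal.ofReal (1 / ((n : ℝ) + 1)) := by
      intro n
      refine (measure_mono ?_).trans (hV3 n).le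
      intro x hx
      obtain ⟨i, hx1⟩ := Set.mem_iUnion.1 (Set.mem_iInter.1 hx n)
      obtain ⟨hi, hx2⟩ := Set.mem_iUnion.1 hx1
      exact hball i n hx2
    have hlim : Filter.Tendsto (fun n : ℕ => ENNReal.ofReal (1 / ((n : ℝ) + 1))) Filter.atTop
        (𝓝 0) := by
      rw [← ENNReal.ofReal_zero]
      exact ENNReal.tendsto_ofReal tendsto_one_div_add_atTop_nhds_zero_nat
    exact ge_of_tendsto' hlim hle
  have hnot := hg d (fun i _ => t i) f hf hnullW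
  rw [← ht d] at hnot
  apply hnot
  refine Set.mem_iInter.2 fun n => ?_
  have h3 : t d ∈ ⋃ i, Metric.ball (t i) (1 / ((φ f i n : ℝ) + 1)) :=
    Set.mem_iUnion.2 ⟨d, Metric.mem_ball_self (by positivity)⟩
  rw [← hTU n] at h3
  obtain ⟨i, hi, hx⟩ := Set.mem_iUnion₂.1 h3
  exact Set.mem_iUnion.2 ⟨i, Set.mem_iUnion.2 ⟨hd i (Set.mem_iUnion.2 ⟨n, hi⟩), hx⟩⟩

/-- **The covering number of the null ideal is at most `#F`.** -/
theorem covNull (F : Set (Om → ℕ)) (hF : EverywhereDominating F) :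
    ∃ N : Set (Set ℝ), #N ≤ #F ∧ (∀ A ∈ N, volume A = 0) ∧ ⋃₀ N = Set.univ := by
  by_contra hcon
  push Not at hcon
  obtain ⟨t, ht⟩ := nonnull_of_cov F hF hcon
  obtain ⟨N, h1, h2, h3⟩ := cov_of_nonnull F hF t ht
  exact hcon N h1 h2 h3

/-- a null set is covered by `#F` compact null sets -/
theorem compact_cover (F : Set (Om → ℕ)) (hF : EverywhereDominating F) (A : Set ℝ)
    (hA : volume A = 0) :
    ∃ κ : (Om → ℕ) → Set ℝ, (∀ f, IsCompact (κ f) ∧ volume (κ f) = 0) ∧ A ⊆ ⋃ f ∈ F, κ f := by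
  obtain ⟨φ, hφ⟩ := dom2 F hF
  have h1 : ∀ n : ℕ, ∃ V ⊇ A, IsOpen V ∧ volume V < ENNReal.ofReal (1 / ((n : ℝ) + 1)) := by
    intro n
    refine Set.exists_isOpen_lt_of_lt _ _ ?_
    rw [hA]
    exact ENNReal.ofReal_pos.2 (by positivity)
  choose V hV1 hV2 hV3 using h1
  -- compact exhaustion of the open sets
  have h2 : ∀ n : ℕ, ∃ C : ℕ → Set ℝ, (∀ k, IsCompact (C k)) ∧ (∀ k, C k ⊆ V n) ∧
      (∀ y ∈ V n, ∃ m, ∀ k, m ≤ k → y ∈ C k) := by
    intro n
    obtain ⟨D, hDc, hDsub, hDU, hDm⟩ := (hV2 n).exists_iUnion_isClosed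
    refine ⟨fun k => D k ∩ Set.Icc (-(k : ℝ)) k, fun k => isCompact_Icc.inter_left (hDc k),
      fun k => Set.inter_subset_left.trans (hDsub k), fun y hy => ?_⟩
    rw [← hDU] at hy
    obtain ⟨i, hi⟩ := Set.mem_iUnion.1 hy
    obtain ⟨j, hj⟩ := exists_nat_ge |y|
    refine ⟨max i j, fun k hk => ⟨hDm ((le_max_left i j).trans hk) hi, ?_⟩⟩
    have h3 : |y| ≤ (k : ℝ) := hj.trans (by exact_mod_cast (le_max_right i j).trans hk)
    exact abs_le.1 h3
  choose C hC1 hC2 hC3 using h2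
  let o : Om := Classical.arbitrary Om
  refine ⟨fun f => ⋂ n, C n (φ f o n), fun f => ⟨?_, ?_⟩, fun y hy => ?_⟩
  · exact (hC1 0 _).of_isClosed_subset (isClosed_iInter fun n => (hC1 n _).isClosed)
      (Set.iInter_subset (fun n => C n (φ f o n)) 0)
  · refine le_antisymm ?_ bot_le
    have hle : ∀ n : ℕ, volume (⋂ n, C n (φ f o n)) ≤ ENNReal.ofReal (1 / ((n : ℝ) + 1)) :=
      fun n => (measure_mono ((Set.iInter_subset (fun n => C n (φ f o n)) n).trans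
        (hC2 n _))).trans (hV3 n).le
    have hlim : Filter.Tendsto (fun n : ℕ => ENNReal.ofReal (1 / ((n : ℝ) + 1))) Filter.atTop
        (𝓝 0) := by
      rw [← ENNReal.ofReal_zero]
      exact ENNReal.tendsto_ofReal tendsto_one_div_add_atTop_nhds_zero_nat
    exact ge_of_tendsto' hlim hle
  · choose m hm using fun n => hC3 n y (hV1 n hy)
    obtain ⟨f, hf, hfm⟩ := hφ fun _ n => m n
    exact Set.mem_iUnion₂.2 ⟨f, hf, Set.mem_iInter.2 fun n => hm n _ (hfm o n).le⟩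

/-- **The line is the union of `#F` compact null sets.** -/
theorem covCompactNull (F : Set (Om → ℕ)) (hF : EverywhereDominating F) :
    ∃ N : Set (Set ℝ), #N ≤ #F ∧ (∀ A ∈ N, IsCompact A ∧ volume A = 0) ∧ ⋃₀ N = Set.univ := by
  obtain ⟨N, h1, h2, h3⟩ := covNull F hF
  have hF1 : ℵ₁ < #F := aleph_one_lt F (mod_of_everywhere hF)
  have hF0 : ℵ₀ ≤ #F := aleph0_lt_aleph_one.le.trans hF1.le
  choose! κ hκ1 hκ2 using fun A (hA : A ∈ N) => compact_cover F hF A (h2 A hA)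
  refine ⟨Set.range fun p : N × F => κ p.1.1 p.2.1, ?_, ?_, ?_⟩
  · refine mk_range_le.trans ?_
    simp only [mk_prod, lift_id]
    calc #N * #F ≤ #F * #F := by gcongr
      _ = #F := mul_eq_self hF0
  · rintro _ ⟨p, rfl⟩
    exact hκ1 p.1.1 p.1.2 p.2.1
  · refine Set.eq_univ_of_forall fun y => ?_
    have hy : y ∈ ⋃₀ N := h3 ▸ Set.mem_univ y
    obtain ⟨A, hA, hyA⟩ := Set.mem_sUnion.1 hy
    obtain ⟨f, hf, hyf⟩ := Set.mem_iUnion₂.1 (hκ2 A hA hyA)
    exact Set.mem_sUnion.2 ⟨_, ⟨(⟨A, hA⟩, ⟨f, hf⟩), rfl⟩, hyf⟩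

end Pool.Agent.Helper85.HD
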