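import Pool.Agent.Helper85.HD.Cor
import Pool.Agent.Helper85.HD.Null
import Pool.Agent.Helper95.BWD.Union

/-!
# DualInvariants (MP_54d188_lc): proof
-/

set_option autoImplicit false

open Cardinal Set MeasureTheory Pool.Agent.Helper95.BWD

namespace Pool.Agent.Helper85.HD

theorem dualInvariants (F : Set (Om → ℕ)) (hF : EverywhereDominating F) :
    -- (1) pairs of dual invariants
    (∀ (X Y : Type) [TopologicalSpace Y] [PolishSpace Y] (R : X → Y → Prop),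
      (∀ x, ∃ A : Om → Set Y, (∀ i, AnalyticSet (A i)) ∧ {y | R x y} = ⋃ i, A i) →
        (∃ t : Om → X, ¬ ∃ y, ∀ d, R (t d) y) ∨ ∃ H : Set Y, #H ≤ #F ∧ ∀ x, ∃ y ∈ H, R x y) ∧
    -- (2) the real line is the union of `#F` compact null sets
    (∃ N : Set (Set ℝ), #N ≤ #F ∧ (∀ A ∈ N, IsCompact A ∧ volume A = 0) ∧ ⋃₀ N = Set.univ) ∧
    -- (3) the distributivity number of `P(ω)/fin`
    (#F < 𝔠 → ∃ D : Om → Set (Set ℕ),
      (∀ d, ∀ x ∈ D d, x.Infinite ∧ ∀ y : Set ℕ, y.Infinite → (y \ x).Finite → y ∈ D d) ∧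
      (∀ d, ∀ x : Set ℕ, x.Infinite → ∃ y ∈ D d, y ⊆ x) ∧ ⋂ d, D d = ∅) := by
  refine ⟨fun X Y _ _ R hR => ?_, covCompactNull F hF, hNumber F hF⟩
  have h2 : max #F (cofNum Om) ≤ #F :=
    max_le le_rfl ((cofNum_small Om mk_Om.le).trans (one_lt_aleph0.le.trans
      (aleph0_lt_aleph_one.le.trans (aleph_one_lt F (mod_of_everywhere hF)).le)))
  rcases relDichotomy F hF Om Y R (fun x => by
    obtain ⟨A, hA, h⟩ := hR x
    rw [h]
    exact union_suslin A fun i => by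
      obtain ⟨T, hT, hT'⟩ := analytic_suslin (A i) (hA i)
      exact ⟨T, hT, hT'⟩) with h | ⟨H, hH, h⟩
  · exact Or.inl h
  · exact Or.inr ⟨H, hH.trans h2, h⟩

end Pool.Agent.Helper85.HD
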