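import Pool.Agent.Helper85.HD.Cor
import Pool.Agent.Helper85.HD.Null
import Pool.Agent.Helper95.BWD.Union

/-!
# A dichotomy for Suslin relations from an everywhere-dominating family

`Om` is the set of countable ordinals, `F` an arbitrary everywhere-dominating family of functions
`Om → ℕ`.  `SuslinOver K B`: `B` is the projection of a closed subset of `K^ω × Z` (`K` discrete); for
`K = ω` these are the analytic sets.  `cofNum K` is the cofinality of `([K]^{≤ ℵ₁}, ⊆)`, it is at
most `1` for `K = ω` and `K = ω₁`.

1. Every relation `R ⊆ X × Y` with `K`-Suslin sections `R x` (`Y` hereditarily Lindelof, `X` a set):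
   either there are `ℵ₁` elements of `X` without a common `R`-bound, or `max #F (cofNum K)`
   elements of `Y` suffice to `R`-dominate all elements of `X`.
2. The version for orders: if `P` is a preordered set with a hereditarily Lindelof topology and `K`-Suslin
   cones `Iic x`, in which no set of `max #F (cofNum K)` elements is dense below any element, then
   `ℵ₁` open dense subsets of `P` have empty intersection.
3. Hence, if `#F < 2^ℵ₀`, the distributivity number of `P(ω)/fin` is `ℵ₁`.
4. Category, measure, splitting; in the case of measure one alternative holds outright: the real line is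
   the union of `#F` compact null sets.

Idea.  Bounds from `F` put all sequences `(w_d)_{d<ω₁}` of witnesses into one of `#F` products of
finite windows.  Given such windows `p` and `t_i` for `i < d`, choose a point `y(p, d)` in the
intersection of the closed sets of all `y` which are `R`-related to the `t_i` by witnesses in the windows.
If `t_d` is not related to any of the points `y(p, d)`, then `(t_d)_{d<ω₁}` has no bound: the
intersection of the closed sets over all `i < ω₁` is the intersection over the `i < d` for some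
countable `d`.  In the version for orders the `t_d` come from a tree of maximal antichains.

For the null sets: if the line is not covered by `#F` null sets then the diagonal argument gives `ℵ₁` reals
`t_d` which form a set which is not null.  Let `U_n` be decreasing open sets which contain the rationals
and whose intersection `N_0` is null.  Every real `y` is in `t_d + N_0` for some `d` or in
`E_f = {y | ∀ d, y - t_d ∉ U_{f(d)}}` for some `f ∈ F`.  The set `E_f` is null: for some `n` the set
`X_n = {t_d | f(d) ≤ n}` is not null, and for a closed set `Z` of positive measure some element of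
`Z - X_n` is rational (ergodicity of the translations by rationals).
-/

set_option autoImplicit false

open Cardinal Set MeasureTheory Pool.Agent.Helper95.BWD Pool.Agent.Helper85.HD

namespace Pool.Agent.Helper85.HD.OldHitting

/-- **Result.** -/
theorem result (F : Set (Om → ℕ)) (hF : EverywhereDominating F) :
    -- (1) the dichotomy for relations with `K`-Suslin sections
    (∀ (K X Y : Type) [TopologicalSpace Y] [HereditarilyLindelofSpace Y] (R : X → Y → Prop),
      (∀ x, SuslinOver K {y | R x y}) →
        (∃ t : Om → X, ¬ ∃ y, ∀ d, R (t d) y) ∨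
          ∃ H : Set Y, #H ≤ max #F (cofNum K) ∧ ∀ x, ∃ y ∈ H, R x y) ∧
    -- (2) the version for orders
    (∀ (K P : Type) [Preorder P] [TopologicalSpace P] [HereditarilyLindelofSpace P],
      (∀ x : P, SuslinOver K (Set.Iic x)) →
      (∀ (x : P) (H : Set P), #H ≤ max #F (cofNum K) → ∃ z, z ≤ x ∧ ∀ y ∈ H, ¬ y ≤ z) →
        ∃ D : Om → Set P, (∀ d, IsLowerSet (D d)) ∧ (∀ d x, ∃ z ∈ D d, z ≤ x) ∧ ⋂ d, D d = ∅) ∧
    -- (3) the distributivity number of `P(ω)/fin`
    (#F < 𝔠 → ∃ D : Om → Set (Set ℕ),
      (∀ d, ∀ x ∈ D d, x.Infinite ∧ ∀ y : Set ℕ, y.Infinite → (y \ x).Finite → y ∈ D d) ∧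
      (∀ d, ∀ x : Set ℕ, x.Infinite → ∃ y ∈ D d, y ⊆ x) ∧ ⋂ d, D d = ∅) ∧
    -- (4) category
    ((∃ M : Om → Set ℝ, (∀ d, IsMeagre (M d)) ∧ ⋃ d, M d = Set.univ) ∨
      ∃ H : Set ℝ, #H ≤ #F ∧ ¬ IsMeagre H) ∧
    -- measure
    ((∃ M : Om → Set ℝ, (∀ d, volume (M d) = 0) ∧ ⋃ d, M d = Set.univ) ∨
      ∃ H : Set ℝ, #H ≤ #F ∧ volume H ≠ 0) ∧
    -- splitting and reaping
    ((∃ s : Om → Set ℕ, ∀ y : Set ℕ, y.Infinite → ∃ d, (y ∩ s d).Infinite ∧ (y \ s d).Infinite) ∨
      ∃ H : Set (Set ℕ), #H ≤ #F ∧ (∀ y ∈ H, y.Infinite) ∧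
        ∀ x : Set ℕ, ∃ y ∈ H, (y ∩ x).Finite ∨ (y \ x).Finite) ∧
    -- the real line is the union of `#F` compact null sets
    (∃ N : Set (Set ℝ), #N ≤ #F ∧ (∀ A ∈ N, IsCompact A ∧ volume A = 0) ∧ ⋃₀ N = Set.univ) ∧
    -- the range of the theorem
    cofNum ℕ ≤ 1 ∧ cofNum Om ≤ 1 ∧
    (∀ (Z : Type) [TopologicalSpace Z] [T2Space Z] (A : Set Z), MeasureTheory.AnalyticSet A →
      SuslinOver ℕ A) ∧
    (∀ (Z : Type) [TopologicalSpace Z] (A : Om → Set Z), (∀ i, SuslinOver ℕ (A i)) →
      SuslinOver Om (⋃ i, A i)) :=
  ⟨fun K _ Y _ _ R hR => relDichotomy F hF K Y R hR,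
    fun K P _ _ _ hP hd => distrib F hF K P hP hd, hNumber F hF, catDichotomy F hF,
    nullDichotomy F hF, splitDichotomy F hF, covCompactNull F hF, cofNum_nat, cofNum_small Om mk_Om.le,
    fun _ _ _ A hA => by
      obtain ⟨R, hR, h⟩ := analytic_suslin A hA
      exact ⟨R, hR, h⟩,
    fun _ _ A hA => union_suslin A hA⟩

end Pool.Agent.Helper85.HD.OldHitting
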